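import Mathlib

/-! A periodic commutative monoid `S` with `d(S,R) ≤ 1` for every `R`, while `D_{ā}(S/ℋ)` is
unbounded over the elements `a` with `⟨a⟩` not a group:
`S = (finite subsets of ℕ, ∪) × ({0,1,2}, truncated addition)`. -/

namespace Pool.Agent.Results.MP_6ad575_co.Nil

section Defs
variable {S : Type} [AddCommMonoid S]

/-- the cyclic subsemigroup `⟨x⟩ = {m x : m ≥ 1}` -/
def cyc (x : S) : Set S := {y | ∃ m : ℕ, 1 ≤ m ∧ y = m • x}

/-- `⟨x⟩` is a group -/
def CycGroup (x : S) : Prop :=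
  ∃ e ∈ cyc x, (∀ y ∈ cyc x, e + y = y) ∧ ∀ y ∈ cyc x, ∃ z ∈ cyc x, y + z = e

/-- `a ⪯ b` -/
def Pre (a b : S) : Prop := a = b ∨ ∃ c, a = b + c

/-- Green's relation `ℋ` -/
def H (a b : S) : Prop := Pre a b ∧ Pre b a

/-- the sequence of classes `s̄_1, …, s̄_ℓ` over the monoid `S/ℋ` is irreducible: no proper
subsequence (the empty one included) has the same sum in `S/ℋ` -/
def IrredH {l : ℕ} (s : Fin l → S) : Prop :=
  ∀ I : Finset (Fin l), I ≠ Finset.univ → ¬ H (∑ i ∈ I, s i) (∑ i, s i)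

/-- `s_1, …, s_ℓ` is one of the sequences counted by `d(S,R)`; `e i` is the idempotent of
`⟨s i⟩` -/
def Counted (R : Type) [CommRing R] {l : ℕ} (s e : Fin l → S) : Prop :=
  (∀ i, e i ∈ cyc (s i) ∧ e i + e i = e i) ∧
  ∀ a : Fin l → R, (∀ i, a i ≠ 0) →
    ∏ i, (AddMonoidAlgebra.single (s i) (1 : R) - AddMonoidAlgebra.single (e i) (a i) :
      AddMonoidAlgebra R S) ≠ 0

end Defs

@[ext] structure M where
  A : Finset ℕ
  u : Fin 3

def tadd (u v : Fin 3) : Fin 3 := ⟨min (u.1 + v.1) 2, by omega⟩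

instance : Add M := ⟨fun x y => ⟨x.A ∪ y.A, tadd x.u y.u⟩⟩
instance : Zero M := ⟨⟨∅, 0⟩⟩

@[simp] lemma add_A (x y : M) : (x + y).A = x.A ∪ y.A := rfl
@[simp] lemma add_u (x y : M) : (x + y).u = tadd x.u y.u := rfl
@[simp] lemma zero_A : (0 : M).A = ∅ := rfl
@[simp] lemma zero_u : (0 : M).u = 0 := rfl

instance : AddCommMonoid M where
  add_assoc x y z := by
    ext1
    · simp
    · simp only [add_u]; generalize x.u = a; generalize y.u = b; generalize z.u = c
      revert a b c; decide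
  zero_add x := by
    ext1
    · simp
    · simp only [add_u, zero_u]; generalize x.u = a; revert a; decide
  add_zero x := by
    ext1
    · simp
    · simp only [add_u, zero_u]; generalize x.u = a; revert a; decide
  add_comm x y := by
    ext1
    · simp [Finset.union_comm]
    · simp only [add_u]; generalize x.u = a; generalize y.u = b; revert a b; decide
  nsmul := nsmulRec

lemma mem_cyc {x y : M} (h : y ∈ cyc x) : y = x ∨ (x.u = 1 ∧ y = ⟨x.A, 2⟩) := by
  obtain ⟨m, hm, rfl⟩ := h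
  induction m, hm using Nat.le_induction with
  | base => simp
  | succ m _ ih =>
    rw [succ_nsmul]
    rcases ih with h | ⟨h1, h⟩
    · rw [h]
      obtain ⟨A, u⟩ := x
      fin_cases u
      · left; ext1 <;> simp [tadd]
      · right; refine ⟨rfl, ?_⟩; ext1 <;> simp [tadd]
      · left; ext1 <;> simp [tadd]
    · rw [h]
      right
      refine ⟨h1, ?_⟩
      ext1
      · simp
      · simp [h1, tadd]

lemma sum_A {ι : Type*} (I : Finset ι) (s : ι → M) (k : ℕ) :
    k ∈ (∑ i ∈ I, s i).A ↔ ∃ i ∈ I, k ∈ (s i).A := by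
  classical
  induction I using Finset.induction_on with
  | empty => simp
  | insert a I ha ih => rw [Finset.sum_insert ha]; simp [ih]

lemma sum_u {ι : Type*} (I : Finset ι) (s : ι → M) (h : ∀ i ∈ I, (s i).u = 0) :
    (∑ i ∈ I, s i).u = 0 := by
  classical
  induction I using Finset.induction_on with
  | empty => simp
  | insert a I ha ih =>
    rw [Finset.sum_insert ha, add_u, h a (by simp), ih fun i hi => h i (by simp [hi])]
    rfl

theorem result : ∃ (S : Type) (_ : AddCommMonoid S), (∀ x : S, (cyc x).Finite) ∧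
    (∀ (R : Type) [CommRing R] [Nontrivial R] (l : ℕ) (s e : Fin l → S), Counted R s e → l ≤ 1) ∧
    ∀ n : ℕ, ∃ a : S, ¬ CycGroup a ∧ ¬ H a 0 ∧
      ∃ (l : ℕ) (s : Fin l → S), n ≤ l ∧ H (∑ i, s i) a ∧ IrredH s := by
  refine ⟨M, inferInstance, fun x => ?_, fun R _ _ l s e h => ?_, fun n => ?_⟩
  · refine (Set.toFinite {x, ⟨x.A, 2⟩}).subset fun y hy => ?_
    rcases mem_cyc hy with h | h
    · simp [h]
    · simp [h.2]
  · by_contra hl
    obtain ⟨k, rfl⟩ : ∃ k, l = k + 2 := ⟨l - 2, by omega⟩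
    apply h.2 (fun _ => 1) (fun _ => one_ne_zero)
    rw [Fin.prod_univ_succ, Fin.prod_univ_succ, ← mul_assoc]
    apply mul_eq_zero_of_left
    rcases mem_cyc (h.1 0).1 with h0 | ⟨h0, h0'⟩
    · rw [h0]; simp
    rcases mem_cyc (h.1 (Fin.succ 0)).1 with h1 | ⟨h1, h1'⟩
    · rw [h1]; simp
    have e1 : s 0 + e (Fin.succ 0) = s 0 + s (Fin.succ 0) := by
      rw [h1']; ext1
      · rfl
      · rw [add_u, add_u, h0, h1]; rfl
    have e2 : e 0 + e (Fin.succ 0) = e 0 + s (Fin.succ 0) := by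
      rw [h1', h0']; ext1
      · rfl
      · rw [add_u, add_u, h1]; rfl
    simp only [sub_mul, mul_sub, AddMonoidAlgebra.single_mul_single, e1, e2]
    simp
  · let s : Fin (n + 1) → M := fun i => ⟨{i.1}, if i = 0 then 1 else 0⟩
    have hu : (∑ i, s i).u = 1 := by
      rw [Fin.sum_univ_succ, add_u, sum_u _ _ fun i _ => by simp [s]]
      rfl
    refine ⟨∑ i, s i, ?_, ?_, n + 1, s, by omega, ⟨Or.inl rfl, Or.inl rfl⟩, fun I hI hH => ?_⟩
    · rintro ⟨e, he, h1, -⟩
      have := congrArg M.u (h1 _ ⟨1, le_rfl, (one_nsmul _).symm⟩)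
      rw [add_u, hu] at this
      rcases mem_cyc he with h | h
      · rw [h, hu] at this; exact absurd this (by decide)
      · rw [h.2] at this; exact absurd (show tadd 2 1 = 1 from this) (by decide)
    · rintro ⟨-, h | ⟨c, h⟩⟩
      · have := congrArg M.u h
        rw [hu] at this
        exact absurd this (by decide)
      · have := congrArg M.u h
        rw [add_u, hu, zero_u] at this
        generalize c.u = v at this
        revert v; decide
    · obtain ⟨j, hj⟩ : ∃ j, j ∉ I := by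
        by_contra hc
        push Not at hc
        exact hI (Finset.eq_univ_of_forall hc)
      have h1 : j.1 ∈ (∑ i, s i).A := (sum_A _ _ _).2 ⟨j, by simp, by simp [s]⟩
      have h2 : j.1 ∈ (∑ i ∈ I, s i).A := by
        rcases hH.1 with h | ⟨c, h⟩ <;> rw [h]
        · exact h1
        · simp [h1]
      obtain ⟨i, hi, h3⟩ := (sum_A _ _ _).1 h2
      simp only [s, Finset.mem_singleton] at h3
      exact hj (Fin.ext h3 ▸ hi)

end Pool.Agent.Results.MP_6ad575_co.Nil
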